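import Mathlib

set_option autoImplicit false

namespace Pool.Agent.Results.MP_771c73_an.NoDenseExtension

open Finset

noncomputable def sgr (b : Bool) : ℝ := if b then -1 else 1

def pt (S : Finset ℕ) : ℕ → Bool := fun n => decide (n ∈ S)

lemma sgr_sq (b : Bool) : sgr b * sgr b = 1 := by
  cases b <;> simp [sgr]

noncomputable def P (N : ℕ) (t : ℝ) (S : Finset ℕ) (x : ℕ → Bool) : ℂ :=
  ∏ k ∈ range N, (1 + Complex.I * (t : ℂ) * (sgr (pt S k) : ℂ) * (sgr (x k) : ℂ))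

lemma sum_P (N n : ℕ) (hn : n < N) (t : ℝ) (x : ℕ → Bool) :
    ∑ S ∈ (range N).powerset, ((sgr (pt S n) : ℝ) : ℂ) * P N t S x
      = 2 ^ N * (Complex.I * (t : ℂ) * (sgr (x n) : ℂ)) := by
  classical
  have h1 : ∀ S ∈ (range N).powerset, ((sgr (pt S n) : ℝ) : ℂ) * P N t S x
      = (∏ k ∈ S, ((if k = n then -1 else 1) * (1 - Complex.I * (t : ℂ) * (sgr (x k) : ℂ))))
        * ∏ k ∈ range N \ S, (1 + Complex.I * (t : ℂ) * (sgr (x k) : ℂ)) := by
    intro S hS
    rw [mem_powerset] at hS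
    have h2 : ((sgr (pt S n) : ℝ) : ℂ) * P N t S x
        = ∏ k ∈ range N, ((if k = n then ((sgr (pt S k) : ℝ) : ℂ) else 1) *
          (1 + Complex.I * (t : ℂ) * (sgr (pt S k) : ℂ) * (sgr (x k) : ℂ))) := by
      rw [prod_mul_distrib, prod_ite_eq' (range N) n, if_pos (mem_range.mpr hn)]
      rfl
    rw [h2, ← prod_sdiff hS, mul_comm]
    congr 1
    · refine prod_congr rfl fun k hk => ?_
      have : pt S k = true := by simp [pt, hk]
      rw [this]
      by_cases hkn : k = n <;> simp [hkn, sgr] <;> ring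
    · refine prod_congr rfl fun k hk => ?_
      have : pt S k = false := by
        simp only [mem_sdiff] at hk
        simp [pt, hk.2]
      rw [this]
      by_cases hkn : k = n <;> simp [hkn, sgr]
  rw [sum_congr rfl h1, ← prod_add]
  have h3 : ∀ k ∈ range N, ((if k = n then (-1:ℂ) else 1) * (1 - Complex.I * (t : ℂ) * (sgr (x k) : ℂ))
      + (1 + Complex.I * (t : ℂ) * (sgr (x k) : ℂ)))
      = 2 * (if k = n then Complex.I * (t : ℂ) * (sgr (x k) : ℂ) else 1) := by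
    intro k hk
    by_cases hkn : k = n <;> simp [hkn] <;> ring
  rw [prod_congr rfl h3, prod_mul_distrib, prod_ite_eq' (range N) n, if_pos (mem_range.mpr hn)]
  simp

noncomputable def fR (N : ℕ) (t : ℝ) (S : Finset ℕ) (x : ℕ → Bool) : ℝ := (P N t S x).im

lemma sum_fR (N n : ℕ) (hn : n < N) (t : ℝ) (x : ℕ → Bool) :
    ∑ S ∈ (range N).powerset, sgr (pt S n) * fR N t S x = 2 ^ N * (t * sgr (x n)) := by
  have h := congrArg Complex.im (sum_P N n hn t x)
  rw [Complex.im_sum] at h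
  have h1 : ∀ S ∈ (range N).powerset, (((sgr (pt S n) : ℝ) : ℂ) * P N t S x).im
      = sgr (pt S n) * fR N t S x := by
    intro S _
    rw [Complex.im_ofReal_mul]; rfl
  rw [sum_congr rfl h1] at h
  rw [h]
  have h2 : (2 : ℂ) ^ N * (Complex.I * (t : ℂ) * (sgr (x n) : ℂ))
      = ((2 ^ N * (t * sgr (x n)) : ℝ) : ℂ) * Complex.I := by
    push_cast; ring
  rw [h2, Complex.mul_I_im, Complex.ofReal_re]

lemma abs_fR_le (M : ℕ) (hM : 0 < M) (S : Finset ℕ) (x : ℕ → Bool) :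
    |fR (M ^ 2) (1 / M) S x| ≤ 2 := by
  have hM' : (0:ℝ) < M := by exact_mod_cast hM
  have h1 : ‖P (M ^ 2) (1 / M) S x‖ ^ 2 ≤ 4 := by
    rw [P, norm_prod, ← prod_pow]
    have h2 : ∀ k ∈ range (M ^ 2), ‖(1 + Complex.I * ((1 / M : ℝ) : ℂ) * (sgr (pt S k) : ℂ) *
        (sgr (x k) : ℂ))‖ ^ 2 = 1 + 1 / (M:ℝ) ^ 2 := by
      intro k _
      have : (1 + Complex.I * ((1 / M : ℝ) : ℂ) * (sgr (pt S k) : ℂ) * (sgr (x k) : ℂ))
          = ((1:ℝ) : ℂ) + ((1 / M * sgr (pt S k) * sgr (x k) : ℝ) : ℂ) * Complex.I := by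
        push_cast; ring
      rw [this, ← Complex.normSq_eq_norm_sq, Complex.normSq_add_mul_I]
      have e1 := sgr_sq (pt S k)
      have e2 := sgr_sq (x k)
      have : (1 / (M:ℝ) * sgr (pt S k) * sgr (x k)) ^ 2
        = 1 / (M:ℝ)^2 * (sgr (pt S k) * sgr (pt S k)) * (sgr (x k) * sgr (x k)) := by ring
      rw [this, e1, e2]; ring
    rw [prod_congr rfl h2, prod_const, card_range]
    have h3 : 1 + 1 / (M:ℝ) ^ 2 ≤ Real.exp (1 / (M:ℝ) ^ 2) := by
      have := Real.add_one_le_exp (1 / (M:ℝ) ^ 2)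
      linarith
    calc (1 + 1 / (M:ℝ) ^ 2) ^ (M ^ 2) ≤ (Real.exp (1 / (M:ℝ) ^ 2)) ^ (M ^ 2) :=
          pow_le_pow_left₀ (by positivity) h3 _
      _ = Real.exp 1 := by
          rw [← Real.exp_nat_mul]
          congr 1
          push_cast
          field_simp
      _ ≤ 4 := by
          have := Real.exp_one_lt_d9
          linarith
  have h4 : ‖P (M ^ 2) (1 / M) S x‖ ≤ 2 := by
    have h5 : (0:ℝ) ≤ ‖P (M ^ 2) (1 / M) S x‖ := norm_nonneg _
    nlinarith
  exact (Complex.abs_im_le_norm _).trans h4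

lemma sgr_rel (k N : ℕ) (S : Finset ℕ) (hS : S ∈ (range N).powerset) :
    sgr (pt S k) - sgr (pt (range N \ S) k)
      = ∑ n ∈ range N, sgr (pt S n) * (sgr (pt ∅ k) - sgr (pt {n} k)) := by
  classical
  rw [mem_powerset] at hS
  have h0 : ∀ n ∈ range N, sgr (pt S n) * (sgr (pt ∅ k) - sgr (pt {n} k))
      = if k = n then 2 * sgr (pt S n) else 0 := by
    intro n _
    by_cases hkn : k = n
    · simp [pt, sgr, hkn]; ring
    · simp [pt, sgr, hkn]
  rw [sum_congr rfl h0, sum_ite_eq (range N) k]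
  by_cases hk : k < N
  · by_cases hkS : k ∈ S
    · simp [pt, sgr, hk, hkS]; norm_num
    · simp [pt, sgr, hk, hkS]; norm_num
  · have hkS : k ∉ S := fun h => hk (mem_range.mp (hS h))
    simp [pt, sgr, hk, hkS]

lemma cont_sgr (k : ℕ) : Continuous fun x : ℕ → Bool => sgr (x k) :=
  (continuous_of_discreteTopology (f := sgr)).comp (continuous_apply k)

lemma cont_fR (N : ℕ) (t : ℝ) (S : Finset ℕ) : Continuous (fR N t S) := by
  unfold fR P
  refine Complex.continuous_im.comp ?_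
  refine continuous_finsetProd _ fun k _ => ?_
  have := cont_sgr k
  fun_prop

/-- the `k`-th coordinate function -/
noncomputable def rad (𝕜 : Type) [RCLike 𝕜] (k : ℕ) : C(ℕ → Bool, 𝕜) :=
  ⟨fun x => ((sgr (x k) : ℝ) : 𝕜), RCLike.continuous_ofReal.comp (cont_sgr k)⟩

noncomputable def ff (𝕜 : Type) [RCLike 𝕜] (N : ℕ) (t : ℝ) (S : Finset ℕ) : C(ℕ → Bool, 𝕜) :=
  ⟨fun x => ((fR N t S x : ℝ) : 𝕜), RCLike.continuous_ofReal.comp (cont_fR N t S)⟩

/-- the subspace -/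
noncomputable def G (𝕜 : Type) [RCLike 𝕜] : Submodule 𝕜 C(ℕ → Bool, 𝕜) where
  carrier := {h | ∀ N : ℕ, ∀ S ∈ (range N).powerset, h (pt S) - h (pt (range N \ S))
    = ∑ n ∈ range N, ((sgr (pt S n) : ℝ) : 𝕜) * (h (pt ∅) - h (pt {n}))}
  add_mem' := by
    intro a b ha hb N S hS
    have h1 := ha N S hS
    have h2 := hb N S hS
    have h3 : ∀ n ∈ range N, ((sgr (pt S n) : ℝ) : 𝕜) * ((a + b) (pt ∅) - (a + b) (pt {n}))
      = ((sgr (pt S n) : ℝ) : 𝕜) * (a (pt ∅) - a (pt {n})) +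
        ((sgr (pt S n) : ℝ) : 𝕜) * (b (pt ∅) - b (pt {n})) := by
      intro n _
      simp only [ContinuousMap.add_apply]; ring
    rw [sum_congr rfl h3, sum_add_distrib, ← h1, ← h2]
    simp only [ContinuousMap.add_apply]; ring
  zero_mem' := by
    intro N S hS
    simp
  smul_mem' := by
    intro c a ha N S hS
    have h1 := ha N S hS
    have h3 : ∀ n ∈ range N, ((sgr (pt S n) : ℝ) : 𝕜) * ((c • a) (pt ∅) - (c • a) (pt {n}))
      = c * (((sgr (pt S n) : ℝ) : 𝕜) * (a (pt ∅) - a (pt {n}))) := by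
      intro n _
      simp only [ContinuousMap.smul_apply, smul_eq_mul]; ring
    rw [sum_congr rfl h3, ← mul_sum, ← h1]
    simp only [ContinuousMap.smul_apply, smul_eq_mul]; ring

lemma G_closed (𝕜 : Type) [RCLike 𝕜] : IsClosed (G 𝕜 : Set C(ℕ → Bool, 𝕜)) := by
  have : (G 𝕜 : Set C(ℕ → Bool, 𝕜)) = ⋂ N : ℕ, ⋂ S ∈ (range N).powerset,
      {h | h (pt S) - h (pt (range N \ S))
        = ∑ n ∈ range N, ((sgr (pt S n) : ℝ) : 𝕜) * (h (pt ∅) - h (pt {n}))} := by
    ext h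
    simp only [Set.mem_iInter]
    rfl
  rw [this]
  refine isClosed_iInter fun N => isClosed_iInter fun S => isClosed_iInter fun _ => ?_
  have hc : ∀ x : ℕ → Bool, Continuous fun h : C(ℕ → Bool, 𝕜) => h x :=
    fun x => continuous_eval_const x
  refine isClosed_eq ((hc _).sub (hc _)) ?_
  refine continuous_finsetSum _ fun n _ => ?_
  exact continuous_const.mul ((hc _).sub (hc _))

lemma rad_mem (𝕜 : Type) [RCLike 𝕜] (k : ℕ) : rad 𝕜 k ∈ G 𝕜 := by
  intro N S hS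
  have h := sgr_rel k N S hS
  have h2 := congrArg (fun r : ℝ => (r : 𝕜)) h
  simp only [RCLike.ofReal_sub, RCLike.ofReal_sum, RCLike.ofReal_mul] at h2
  exact h2

/-- For each of the scalar fields `ℝ`, `ℂ` there are a separable Banach space `E`, a closed
subspace `G` and a bounded sequence `φ n` of functionals on `G` such that no bounded sequence
`f n` of extensions to `E` has `G + (common kernel of the f n)` dense in `E`. -/
theorem result (𝕜 : Type) [RCLike 𝕜] :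
    ∃ (E : Type) (_ : NormedAddCommGroup E) (_ : NormedSpace 𝕜 E) (_ : CompleteSpace E)
      (_ : TopologicalSpace.SeparableSpace E) (G : Submodule 𝕜 E) (φ : ℕ → StrongDual 𝕜 G),
      IsClosed (G : Set E) ∧ (∃ C : ℝ, ∀ n, ‖φ n‖ ≤ C) ∧
      ∀ f : ℕ → StrongDual 𝕜 E, (∀ n, ∀ g : G, f n (g : E) = φ n g) →
        (∃ C : ℝ, ∀ n, ‖f n‖ ≤ C) →
        ¬ Dense {x : E | ∃ g ∈ G, ∃ y : E, (∀ n, f n y = 0) ∧ x = g + y} := by
  classical
  obtain ⟨e, he⟩ := exists_surjective_nat (Finset ℕ)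
  let ev : (ℕ → Bool) → (C(ℕ → Bool, 𝕜) →L[𝕜] 𝕜) := fun x => ContinuousMap.evalCLM 𝕜 x
  have hev : ∀ x h, ev x h = h x := fun x h => rfl
  have hevn : ∀ x, ‖ev x‖ ≤ 1 := by
    intro x
    refine ContinuousLinearMap.opNorm_le_bound _ zero_le_one fun h => ?_
    rw [hev, one_mul]
    exact ContinuousMap.norm_coe_le_norm h x
  refine ⟨C(ℕ → Bool, 𝕜), inferInstance, inferInstance, inferInstance, inferInstance, G 𝕜,
    fun n => (ev (pt (e n))).comp (G 𝕜).subtypeL, G_closed 𝕜, ⟨1, fun n => ?_⟩, ?_⟩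
  · refine ContinuousLinearMap.opNorm_le_bound _ zero_le_one fun h => ?_
    rw [one_mul]
    exact ContinuousMap.norm_coe_le_norm (h : C(ℕ → Bool, 𝕜)) _
  intro f hf hC hD
  obtain ⟨C, hC⟩ := hC
  choose i hi using he
  -- functionals indexed by finite sets
  let F : Finset ℕ → StrongDual 𝕜 C(ℕ → Bool, 𝕜) := fun S => f (i S)
  have hFg : ∀ S, ∀ g ∈ G 𝕜, F S g = g (pt S) := by
    intro S g hg
    have := hf (i S) ⟨g, hg⟩
    simp only [ContinuousLinearMap.comp_apply] at this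
    change f (i S) g = _
    rw [this]
    change g (pt (e (i S))) = _
    rw [hi]
  have hFC : ∀ S, ‖F S‖ ≤ C := fun S => hC _
  have hC0 : 0 ≤ C := (norm_nonneg _).trans (hC 0)
  -- the relation holds everywhere
  have hrel : ∀ N : ℕ, ∀ S ∈ (range N).powerset, ∀ h : C(ℕ → Bool, 𝕜),
      F S h - F (range N \ S) h
        = ∑ n ∈ range N, ((sgr (pt S n) : ℝ) : 𝕜) * (F ∅ h - F {n} h) := by
    intro N S hS
    have hcont1 : Continuous fun h : C(ℕ → Bool, 𝕜) => F S h - F (range N \ S) h :=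
      (F S).continuous.sub (F _).continuous
    have hcont2 : Continuous fun h : C(ℕ → Bool, 𝕜) =>
        ∑ n ∈ range N, ((sgr (pt S n) : ℝ) : 𝕜) * (F ∅ h - F {n} h) := by
      refine continuous_finsetSum _ fun n _ => ?_
      exact continuous_const.mul ((F _).continuous.sub (F _).continuous)
    have := Continuous.ext_on hD hcont1 hcont2 (by
      rintro x ⟨g, hg, y, hy, rfl⟩
      have hy' : ∀ S, F S y = 0 := fun S => hy _
      simp only [map_add, hy', add_zero]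
      rw [hFg _ g hg, hFg _ g hg, hg N S hS]
      refine sum_congr rfl fun n _ => ?_
      rw [hFg _ g hg, hFg _ g hg])
    intro h
    exact congrFun this h
  obtain ⟨M, hM⟩ := exists_nat_gt (2 * C)
  have hM0 : 0 < M := by
    have : (0:ℝ) < M := lt_of_le_of_lt (by positivity) hM
    exact_mod_cast this
  have hMr : (0:ℝ) < M := by exact_mod_cast hM0
  set N := M ^ 2 with hN
  set t : ℝ := 1 / M with ht
  -- the averaging identity
  have havg : ∀ n ∈ range N, ∑ S ∈ (range N).powerset,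
      ((sgr (pt S n) : ℝ) : 𝕜) • ff 𝕜 N t S = ((2 ^ N * t : ℝ) : 𝕜) • rad 𝕜 n := by
    intro n hn
    ext x
    rw [ContinuousMap.sum_apply]
    have h := sum_fR N n (mem_range.mp hn) t x
    have h2 := congrArg (fun r : ℝ => (r : 𝕜)) h
    simp only [RCLike.ofReal_sum, RCLike.ofReal_mul] at h2
    simp only [ContinuousMap.smul_apply, smul_eq_mul]
    change ∑ S ∈ (range N).powerset, ((sgr (pt S n) : ℝ) : 𝕜) * ((fR N t S x : ℝ) : 𝕜)
      = ((2 ^ N * t : ℝ) : 𝕜) * ((sgr (x n) : ℝ) : 𝕜)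
    rw [h2]
    simp only [RCLike.ofReal_mul]
    ring
  have hff : ∀ S, ‖ff 𝕜 N t S‖ ≤ 2 := by
    intro S
    rw [ContinuousMap.norm_le _ (by norm_num)]
    intro x
    change ‖((fR N t S x : ℝ) : 𝕜)‖ ≤ 2
    rw [RCLike.norm_ofReal]
    exact abs_fR_le M hM0 S x
  -- double counting
  have hsum : ∑ S ∈ (range N).powerset, (F S (ff 𝕜 N t S) - F (range N \ S) (ff 𝕜 N t S))
      = ((2 ^ N * t * (2 * N) : ℝ) : 𝕜) := by
    rw [sum_congr rfl fun S hS => hrel N S hS (ff 𝕜 N t S), sum_comm]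
    have h1 : ∀ n ∈ range N, ∑ S ∈ (range N).powerset, ((sgr (pt S n) : ℝ) : 𝕜) *
        (F ∅ (ff 𝕜 N t S) - F {n} (ff 𝕜 N t S)) = ((2 ^ N * t * 2 : ℝ) : 𝕜) := by
      intro n hn
      have h2 : ∑ S ∈ (range N).powerset, ((sgr (pt S n) : ℝ) : 𝕜) *
        (F ∅ (ff 𝕜 N t S) - F {n} (ff 𝕜 N t S))
        = (F ∅ - F {n}) (∑ S ∈ (range N).powerset, ((sgr (pt S n) : ℝ) : 𝕜) • ff 𝕜 N t S) := by
        rw [map_sum]
        refine sum_congr rfl fun S _ => ?_
        rw [map_smul, smul_eq_mul, ContinuousLinearMap.sub_apply]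
      rw [h2, havg n hn, map_smul, ContinuousLinearMap.sub_apply, hFg _ _ (rad_mem 𝕜 n),
        hFg _ _ (rad_mem 𝕜 n)]
      have e1 : rad 𝕜 n (pt ∅) = 1 := by
        change ((sgr (pt ∅ n) : ℝ) : 𝕜) = 1
        simp [pt, sgr]
      have e2 : rad 𝕜 n (pt {n}) = -1 := by
        change ((sgr (pt {n} n) : ℝ) : 𝕜) = -1
        simp [pt, sgr]
      rw [e1, e2, smul_eq_mul]
      push_cast
      ring
    rw [sum_congr rfl h1, sum_const, card_range, nsmul_eq_mul]
    push_cast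
    ring
  have hle : ‖∑ S ∈ (range N).powerset, (F S (ff 𝕜 N t S) - F (range N \ S) (ff 𝕜 N t S))‖
      ≤ 2 ^ N * (4 * C) := by
    have h1 : ∀ S ∈ (range N).powerset,
        ‖F S (ff 𝕜 N t S) - F (range N \ S) (ff 𝕜 N t S)‖ ≤ 4 * C := by
      intro S _
      have h2 : ∀ T, ‖F T (ff 𝕜 N t S)‖ ≤ C * 2 := fun T =>
        (F T).le_of_opNorm_le_of_le (hFC T) (hff S)
      calc _ ≤ ‖F S (ff 𝕜 N t S)‖ + ‖F (range N \ S) (ff 𝕜 N t S)‖ := norm_sub_le _ _
        _ ≤ C * 2 + C * 2 := add_le_add (h2 _) (h2 _)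
        _ = 4 * C := by ring
    have h3 := norm_sum_le_of_le _ h1
    rw [sum_const, card_powerset, card_range, nsmul_eq_mul] at h3
    push_cast at h3
    exact h3
  rw [hsum, RCLike.norm_ofReal, abs_of_nonneg (by positivity)] at hle
  have h2N : (0:ℝ) < 2 ^ N := by positivity
  have h5 : t * (2 * N) ≤ 4 * C := by
    have : (2:ℝ) ^ N * (t * (2 * N)) ≤ 2 ^ N * (4 * C) := by linarith [hle, mul_assoc ((2:ℝ)^N) t (2 * N)]
    exact le_of_mul_le_mul_left this h2N
  have h6 : t * (2 * (N:ℝ)) = 2 * M := by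
    rw [ht, hN]; push_cast; field_simp
  rw [h6] at h5
  linarith

end Pool.Agent.Results.MP_771c73_an.NoDenseExtension
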